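import Pool.Agent.U345.ZU

/-!
# The discrete moments of `ζ'` over the zeros on the critical line, against the even moments of `ζ`

Let `k ≥ 1`. For `1 ≤ U ≤ T / log T` let `moment k T U` be the integral of `|ζ(1/2 + iy)|^(2k)` over `y`, with the Gaussian weight
`exp (-((y - T) / U)^2)`, i.e. essentially over the interval of length about `U` around `T` (`U` may be bounded, e.g. `U = 1`).

Theorem (unconditional). For every finite set `Γ` of real zeros `γ` of `ζ(1/2 + iy)`, for instance all zeros in an interval,
`∑ |ζ'(1/2 + iγ)|^(2k) exp (-((γ - T) / U)^2) ≤ (2 (k/2)^(2k+1) / (k!)² + ε) (log T)^(2k+1) moment k T U`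
for all `T ≥ T₀(k, ε)`, uniformly in `U` and `Γ`. Nothing is assumed on the distances or the number of the zeros.

So the `2k`-th moment of zeta is, up to a constant, at least `(log T)^(-2k-1)` times the discrete `2k`-th moment of `ζ'` over the
zeros on the critical line, in every window. The power of the logarithm is the right one: the conjectured orders (Keating-Snaith,
Gonek-Hejhal) for `[0, T]` are `T (log T)^(k²)` and `T (log T)^((k+1)²)`. For the even exponents every upper bound for the moments
of the problem gives one for these discrete moments and every lower bound for the discrete moments one for the moments.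

Upper bounds of the discrete moments over all zeros are known on the Riemann hypothesis (Gonek for `k = 1`, Milinovich, Kirila); the
starting library has the exact order over the critical zeros for the exponents `2 lam`, `0 < lam < 1` (`MP_69b2e4_nt.ExactOrder`).

Proof. Let `f(y)` be `((s - 1) ζ(s))^k` times a Gaussian and the factor `T^(iky/2)`, on the critical line. The spectrum of `f` is
essentially in `[-(k/2) log T, (k/2) log T]`: for all `j` one has `‖f^(j)‖ ≤ ((k/2 + o(1)) log T)^j ‖f‖` in the mean square, by
convexity and the functional equation; this needs no information on the size of the moment. At a zero `f` vanishes to the order `k`,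
and `|f^(k)(γ)| = k! |γ - i/2|^k |ζ'(1/2 + iγ)|^k` times the Gaussian. The mean of `f^(k)` over the interval between two zeros is zero;
so the real part of every multiple `u f^(k)` has a zero between them, and `|f^(k)(γ)|²` is at most twice the integral of
`|f^(k) f^(k+1)|` over the interval from the preceding element of `Γ` to `γ`. These intervals are disjoint, however small they are.
-/

set_option autoImplicit false

namespace Pool.Agent.Results.MP_91b7ff_nt.DerivativeAtZeros

open MeasureTheory Filter Topology

/-- the point `1/2 + iy` -/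
noncomputable def point (y : ℝ) : ℂ := ((1 / 2 : ℝ) : ℂ) + y * Complex.I

/-- the Gaussian weight of width `U` around `T` -/
noncomputable def weight (T U y : ℝ) : ℝ := Real.exp (-((y - T) / U) ^ 2)

/-- the moment `∫ |ζ(1/2 + iy)|^(2k) exp (-((y - T) / U)^2) dy` -/
noncomputable def moment (k : ℕ) (T U : ℝ) : ℝ :=
  ∫ y : ℝ, ‖riemannZeta (point y)‖ ^ (2 * k) * weight T U y

/-- Let `k ≥ 1` and `ε > 0`. There is `T₀` such that for all `T ≥ T₀`, all `U` with `1 ≤ U ≤ T / log T` and every finite
set `Γ` of real numbers `γ` with `ζ(1/2 + iγ) = 0` the sum of `|ζ'(1/2 + iγ)|^(2k)` with the weight is at most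
`(2 (k/2)^(2k+1) / (k!)² + ε) (log T)^(2k+1)` times the moment. -/
theorem result (k : ℕ) (hk : 1 ≤ k) (ε : ℝ) (hε : 0 < ε) :
    ∃ T₀ : ℝ, ∀ T : ℝ, T₀ ≤ T → ∀ U : ℝ, 1 ≤ U → U ≤ T / Real.log T →
      ∀ Γ : Finset ℝ, (∀ γ ∈ Γ, riemannZeta (point γ) = 0) →
        ∑ γ ∈ Γ, ‖deriv riemannZeta (point γ)‖ ^ (2 * k) * weight T U γ ≤
          (2 * ((k : ℝ) / 2) ^ (2 * k + 1) / (k.factorial : ℝ) ^ 2 + ε) * Real.log T ^ (2 * k + 1) *
            moment k T U := by
  have hf : (0 : ℝ) < (k.factorial : ℝ) ^ 2 := by
    have : (0 : ℝ) < k.factorial := by exact_mod_cast Nat.factorial_pos k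
    positivity
  obtain ⟨T1, hT1⟩ := eventually_atTop.mp (U345Z.derZ k hk (mul_pos hε hf))
  refine ⟨max 3 T1, fun T hT U hU1 hU2 Γ hΓ => ?_⟩
  have h := (hT1 T (le_of_max_le_right hT) U ⟨le_of_max_le_left hT, hU1, hU2⟩).2 Γ hΓ
  have e : (2 * ((k : ℝ) / 2) ^ (2 * k + 1) + ε * (k.factorial : ℝ) ^ 2) * Real.log T ^ (2 * k + 1) *
      Q97.MM.JJ k T U (1 / 2) = (k.factorial : ℝ) ^ 2 *
        ((2 * ((k : ℝ) / 2) ^ (2 * k + 1) / (k.factorial : ℝ) ^ 2 + ε) * Real.log T ^ (2 * k + 1) *
          moment k T U) := by
    have e1 : moment k T U = Q97.MM.JJ k T U (1 / 2) := rfl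
    rw [e1]
    field_simp
  rw [e] at h
  exact le_of_mul_le_mul_left h hf

end Pool.Agent.Results.MP_91b7ff_nt.DerivativeAtZeros
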