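import Pool.Agent.U345.ZJ

/-!
# Moments of zeta of order `2k`: all derivatives and all complex shifts are governed by one measure

Let `k` be a natural number and `1 ≤ U ≤ T / log T`, and let `moment k T U` be the integral of
`|ζ(1/2 + iy)|^(2k)` over `y`, with the Gaussian weight `exp (-((y - T) / U)^2)`, i.e. essentially over
the interval of length about `U` around `T` (`U` may be bounded). Let `mixed k m n T U z w` be the
integral, with the same weight, of the `m`-th derivative of `ζ^k` at `1/2 + iy + z / log T` times the
complex conjugate of the `n`-th derivative of `ζ^k` at `1/2 + iy + w / log T`, for complex `z` and `w`.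

Unconditionally, every sequence `T → ∞`, `1 ≤ U ≤ T / log T` has a subsequence along which, for one
probability measure `ν` on `[0, 2k]`, symmetric about `k`, and for all `m`, `n`, `z`, `w`,

`mixed k m n T U z w / ((log T)^(m + n) moment k T U) → ∫ (-u/2)^(m + n) exp (-(z + conj w) u / 2) dν(u)`.

So whatever the size of the moments is (it is not known for `k ≥ 3` and in short intervals), their
dependence on shifts in both variables and the joint moments of `ζ^k` and all its derivatives are
determined by `ν`, and conversely its moments are the normalised mean squares of the derivatives of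
`ζ^k`. For instance `m = n = 1`, `z = w = 0` concerns `k^2` times the joint moment
`∫ |ζ|^(2k-2) |ζ'|^2`, and since the second moment of `ν` is between `k^2` and `2k^2` it follows that,
for `k ≥ 1`, this joint moment is between `1/4 - o(1)` and `1/2 + o(1)` times
`(log T)^2 ∫ |ζ|^(2k)` in every window `1 ≤ U ≤ T / log T`, for every `k`.

Proof: Plancherel's theorem for `((s - 1) ζ(s))^k` times a Gaussian factor and all its derivatives on
vertical lines gives a spectral measure for each window. The functional equation and the convexity of
the means show that these measures are tight with limits on `[0, 2k]` symmetric about `k`. The factors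
are removed in the mean square, uniformly for the shifts in a disc, and Cauchy's formula in the mean
square carries this over to the derivatives.
-/

set_option autoImplicit false

namespace Pool.Agent.Results.MP_91b7ff_nt.DerivativesAndShifts

open MeasureTheory Filter Topology ComplexConjugate

/-- the Gaussian weight of width `U` around `T` -/
noncomputable def weight (T U y : ℝ) : ℝ := Real.exp (-((y - T) / U) ^ 2)

/-- the moment `∫ |ζ(1/2 + iy)|^(2k) exp (-((y - T) / U)^2) dy` -/
noncomputable def moment (k : ℕ) (T U : ℝ) : ℝ :=
  ∫ y : ℝ, ‖riemannZeta (((1 / 2 : ℝ) : ℂ) + y * Complex.I)‖ ^ (2 * k) * weight T U y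

/-- the function `ζ(s)^k` -/
noncomputable def zetaPower (k : ℕ) (s : ℂ) : ℂ := riemannZeta s ^ k

/-- the point `1/2 + iy + z / log T` -/
noncomputable def point (T : ℝ) (z : ℂ) (y : ℝ) : ℂ :=
  ((1 / 2 : ℝ) : ℂ) + y * Complex.I + z / Real.log T

/-- the mixed mean: the integral of the `m`-th derivative of `ζ^k` at `1/2 + iy + z / log T` times the
conjugate of the `n`-th derivative of `ζ^k` at `1/2 + iy + w / log T` and the weight -/
noncomputable def mixed (k m n : ℕ) (T U : ℝ) (z w : ℂ) : ℂ :=
  ∫ y : ℝ, iteratedDeriv m (zetaPower k) (point T z y) *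
    conj (iteratedDeriv n (zetaPower k) (point T w y)) * (weight T U y : ℂ)

/-- Let `k` be a natural number and let `T j → ∞` and `1 ≤ U j ≤ T j / log (T j)`. There are a
subsequence `φ` and a probability measure `ν` on `[0, 2k]`, symmetric about `k`, such that along the
subsequence the moments are positive from some point on and for all natural numbers `m`, `n` and all
complex `z`, `w` the quotient `mixed k m n T U z w / ((log T)^(m + n) moment k T U)` converges to
`∫ (-u/2)^(m + n) exp (-(z + conj w) u / 2) dν(u)`. -/
theorem result (k : ℕ) {T U : ℕ → ℝ} (hT : Tendsto T atTop atTop)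
    (hU : ∀ j, 1 ≤ U j ∧ U j ≤ T j / Real.log (T j)) :
    ∃ φ : ℕ → ℕ, StrictMono φ ∧ ∃ ν : Measure ℝ, IsProbabilityMeasure ν ∧
      (∀ᵐ u ∂ν, u ∈ Set.Icc 0 (2 * k : ℝ)) ∧ ν.map (fun u => 2 * (k : ℝ) - u) = ν ∧
      (∀ᶠ j in atTop, 0 < moment k (T (φ j)) (U (φ j))) ∧
      ∀ (m n : ℕ) (z w : ℂ), Tendsto (fun j => mixed k m n (T (φ j)) (U (φ j)) z w /
        ((Real.log (T (φ j)) ^ (m + n) * moment k (T (φ j)) (U (φ j)) : ℝ) : ℂ)) atTop
        (𝓝 (∫ u, ((-(u / 2) : ℝ) : ℂ) ^ (m + n) * Complex.exp (-((z + conj w) * u / 2)) ∂ν)) :=
  U345Z.limit_all k hT hU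

end Pool.Agent.Results.MP_91b7ff_nt.DerivativesAndShifts
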