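import Mathlib
import Pool.Agent.U615.EP.Jj

/-!
# Lower bounds of the conjectured order for the moments of zeta along every vertical arithmetic progression

Let `q ≥ 2` be an integer (odd or even) and `α > 0` a real number. There are `c > 0` and `T₀` such that for **every** start
`t₀`, all `T ≥ T₀` and all `H ≥ T^{255/256}`

`∑ |ζ(1/2 + i (t₀ + α n))|^q ≥ c H (log (T + H))^{q²/4}`,

where `n` runs through the integers with `T ≤ t₀ + α n ≤ T + H`. In particular

`∑_{n < N} |ζ(1/2 + i (γ + α n))|^q ≥ c N (log N)^{q²/4}`

for all large `N`, uniformly in `- α N / 8 ≤ γ ≤ N^{1 + 1/512}`. These are the lower bounds of the conjectured order, known for the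
integral (Ramachandra), for the values at the points of one progression: every spacing, however large, every start, and
every window of length `T^{255/256}`.

For `q = 2` Li and Radziwiłł (2015) have the asymptotic formula for the second moment along a progression (with the full
window `[0, T]`); if `e^{2 π m / α}` is rational for some integer `m ≠ 0`, the constant is not the one of the integral, and
there `n^{iα}` does not behave like a random phase. The theorem `BohrSets` of the starting files for this problem treats the
integral over the neighbourhoods of progressions (sets of positive density, a fixed number of frequencies); the integral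
over a neighbourhood of the progression says nothing about the values at its points, which are at a distance much larger
than `1 / log T` from each other and the number of which is not large enough for Gallagher's inequality to keep the
power of the logarithm.

Proof. The method of Rudnick and Soundararajan (with the Dirichlet polynomials of the starting library `R311.BS`: truncations
`A` of `ζ^{1/2}` and `C` of `ζ^{q/2}` without the primes of a finite set, `|ζ A^{q-2} C| ≤ μ (|A|^{2q} + |C|²) + μ^{1-q} |ζ|^q`) is
carried out for the sum over `n` with the weight `g((t₀ + α n - τ)/h)`, `g` Gaussian, `h = T^{1 - 1/64}`, `T ≤ τ ≤ 3T`. By Poisson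
summation the mean of `a^{-it} b^{it}` over the progression is the sum over the frequencies `ω = 2 π m / α` of the Gaussian
means of `e^{i ω t} (b/a)^{it}`, and `|m|` may be of order `log T`: there are **many** frequencies, while the starting library
admits boundedly many of them only.

* `m = 0` gives the main term.
* The group of all `m` with `e^{2 π m/α}` rational is generated by one element; the primes of this rational number are
  removed from the Dirichlet polynomials. Then no quotient `a/b ≠ 1` of integers without these primes equals `e^{ω}`, and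
  for the bounded frequencies `a/b` is not even close to `e^ω` unless `max(a, b)` is large.
* For `|ω| ≤ (log T)/2` a pair with `|log (a/b) - ω| < T^{-31/32}` has the form `(a', b')` times a common factor with `a'`, `b'`
  coprime, `a' b' ≥ e^{|ω| - 1}`, and at most one such `a'/b'` exists for every `ω`; its contribution is at most
  `d(a') d(b') (a' b')^{-1/2}` times the main term, and the sum over `ω` converges exponentially and is as small as we like.
* For `|ω| > (log T)/2` one of `a`, `b` is larger than `T^{1/2}`, and as the other one is at most `T^{1/64}`, the pairs are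
  counted by their number in an interval of relative length `T^{-31/32}`; the contribution is `O(T^{-1/16})`.

All pairs with `|log (a/b) - ω| ≥ T^{-31/32}` for all `ω` are annihilated by the Gaussian weight. The truncated zeta function is
replaced by `ζ(1/2 + it)` by means of the approximation `ζ(s) = ∑_{n ≤ x} n^{-s} + O(t^{-1/2})`, `x ≥ 3τ`, point by point. Finally the
inequality is integrated over `τ`.
-/

set_option autoImplicit false

namespace Pool.Agent.Results.MP_91b7ff_nt.EveryProgression

open Finset Filter

/-- **The moments of zeta along every vertical arithmetic progression.** Let `q ≥ 2` be an integer and `α > 0`. (1) There are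
`c > 0` and `T₀ ≥ 1` such that for all `T ≥ T₀`, all `H ≥ T^{255/256}` and all real `t₀` the sum of `|ζ(1/2 + i (t₀ + α n))|^q` over
the integers `n` with `T ≤ t₀ + α n ≤ T + H` is at least `c H (log (T + H))^{q²/4}`. (2) There is `c > 0` such that for all large `N`
and all `γ` with `- α N / 8 ≤ γ ≤ N^{513/512}` the sum of `|ζ(1/2 + i (γ + α n))|^q` over `0 ≤ n < N` is at least
`c N (log N)^{q²/4}`. -/
theorem result (q : ℕ) (hq : 2 ≤ q) (α : ℝ) (hα : 0 < α) :
    (∃ c : ℝ, 0 < c ∧ ∃ T₀ : ℝ, 1 ≤ T₀ ∧ ∀ T : ℝ, T₀ ≤ T → ∀ H : ℝ, T ^ (255 / 256 : ℝ) ≤ H → ∀ t₀ : ℝ,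
      c * H * Real.log (T + H) ^ ((q : ℝ) ^ 2 / 4) ≤
        ∑ n ∈ Icc ⌈(T - t₀) / α⌉ ⌊(T + H - t₀) / α⌋,
          ‖riemannZeta (1 / 2 + ((t₀ + α * n : ℝ) : ℂ) * Complex.I)‖ ^ q) ∧
    (∃ c : ℝ, 0 < c ∧ ∀ᶠ N : ℕ in atTop, ∀ γ : ℝ, -(α * N / 8) ≤ γ → γ ≤ (N : ℝ) ^ (513 / 512 : ℝ) →
      c * N * Real.log N ^ ((q : ℝ) ^ 2 / 4) ≤
        ∑ n ∈ range N, ‖riemannZeta (1 / 2 + ((γ + α * n : ℝ) : ℂ) * Complex.I)‖ ^ q) := by
  refine ⟨?_, ?_⟩
  · obtain ⟨c, hc, T₀, hT₀, h⟩ := Pool.Agent.U615.EP.prog_all q hq α hα
    refine ⟨c, hc, T₀, hT₀, fun T hT H hH t₀ => ?_⟩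
    exact h T hT H (by norm_num at hH ⊢; exact hH) t₀
  · obtain ⟨c, hc, h⟩ := Pool.Agent.U615.EP.prog_N q hq α hα
    refine ⟨c, hc, ?_⟩
    filter_upwards [h] with N hN γ hγ1 hγ2
    exact hN γ hγ1 (by norm_num at hγ2 ⊢; exact hγ2)

end Pool.Agent.Results.MP_91b7ff_nt.EveryProgression
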