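import Pool.Agent.U345.ZAJ
import Pool.Agent.R311.BS.WF

/-!
# The moments of geometric means of zeta over arbitrary random shifts on the scale `1 / log T`

We use Gaussian windows: `1 ≤ U ≤ T / log T` and `moment k T U` is the integral of `|ζ(1/2 + iy)|^(2k)` with the weight
`exp (-((y - T) / U)^2)` (so `U` may be bounded, e.g. `U = 1`).

For a probability measure `ν` on the complex plane we consider the geometric mean of `|ζ|` near the point `1/2 + iy`,
`exp (logMean ν T y)`, `logMean ν T y = ∫ log |ζ(1/2 + iy + z / log T)| dν(z)`.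

Theorem (unconditional, all integers `k ≥ 1`). Let `A ≥ 0`.
(1) There are `c > 0` and `C`, which depend on `k` and `A` only, such that for all large `T`, for `1 ≤ U ≤ T / log T` and for
EVERY probability measure `ν` on the disc `|z| ≤ A` the mean `logMean ν T y` converges absolutely for almost every `y`, and the `2k`-th
moment of the geometric mean, the integral of `exp (2k logMean ν T y)` with the weight, is between `c` times and `C` times the moment.
(2) There are `c > 0` and `η > 0` such that for all large `T`, for `T^(1-η) ≤ U ≤ T / log T` and every probability measure `ν` on the disc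
`|z| ≤ A` the `2k`-th moment of the geometric mean is at least `c U (log T)^(k²)` (the conjectured order).

For instance `ν` may be the uniform measure on a disc, on a circle or on the segment `[-ia, ia]`
(so that one has the geometric mean of `|ζ(1/2 + it)|` over all `t` with `|t - y| ≤ a / log T`), or any measure with finite support: the
integral of every product `∏_j |ζ(1/2 + iy + α_j / log T)|^(e_j)`, `e_j ≥ 0`, `∑ e_j = 2k`, `|α_j| ≤ A`, has the order of the moment, with constants which do
not depend on the number of the factors, on the exponents and on the shifts. The upper bounds in (1) are easy (Jensen's inequality, and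
convexity for one shift). The content is the lower bound: the zeros, where the logarithm is large negative, do not matter, for
any way of averaging. The order of magnitude of the moment is not known for `k ≥ 3` and is not used in (1).

Proof. Divide the line into cells of length `1 / log T`. For most cells, in the sense of the moment, the maximum of `|ζ|` on a disc of radius
`25 (A + 1) / log T` is bounded by a constant times the value at the given point (mean square inequalities for the derivatives of `ζ^k`).
There the number of zeros is bounded, one splits them off, and applies Harnack's inequality to the rest. So for every fixed `z` the mean of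
`log |ζ(1/2 + iy + z / log T)|` over all `y` in the cell is at least `log |ζ(1/2 + it)| - O(1)`; by Fubini the same holds for `logMean ν T y`, and one
applies the convexity of the exponential function.
-/

set_option autoImplicit false

namespace Pool.Agent.Results.MP_91b7ff_nt.GeometricMeans

open MeasureTheory Filter Topology

/-- the point `1/2 + iy` -/
noncomputable def point (y : ℝ) : ℂ := ((1 / 2 : ℝ) : ℂ) + y * Complex.I

/-- the Gaussian weight of the window of width `U` at the height `T` -/
noncomputable def weight (T U y : ℝ) : ℝ := Real.exp (-((y - T) / U) ^ 2)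

/-- the moment `∫ |ζ(1/2 + iy)|^(2k) exp (-((y - T) / U)^2) dy` -/
noncomputable def moment (k : ℕ) (T U : ℝ) : ℝ := ∫ y : ℝ, ‖riemannZeta (point y)‖ ^ (2 * k) * weight T U y

/-- the mean of `log |ζ(1/2 + iy + z / log T)|` over `z` with respect to `ν` -/
noncomputable def logMean (ν : Measure ℂ) (T y : ℝ) : ℝ :=
  ∫ z, Real.log ‖riemannZeta (point y + z / Real.log T)‖ ∂ν

/-- the `2k`-th power of the geometric mean of `|ζ|`, times the weight -/
noncomputable def geometric (k : ℕ) (ν : Measure ℂ) (T U y : ℝ) : ℝ :=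
  Real.exp (2 * k * logMean ν T y) * weight T U y

/-- The lower bound for the moment, from the library. -/
theorem moment_lower (k : ℕ) (hk : 1 ≤ k) : ∃ c : ℝ, 0 < c ∧ ∃ η : ℝ, 0 < η ∧ ∀ᶠ T : ℝ in atTop, ∀ U : ℝ,
    1 ≤ U → T ^ (1 - η) ≤ U → U ≤ T / Real.log T → c * U * Real.log T ^ (k ^ 2) ≤ moment k T U := by
  obtain ⟨c, hc, η, hη, h⟩ := Pool.Agent.R311.BS.main (2 * k) (by omega) (J := 0) (fun _ => 0) 1 one_pos
  refine ⟨c * Real.exp (-1), by positivity, η, hη, ?_⟩
  filter_upwards [h, U345Z.near_zq k hk, eventually_ge_atTop 3] with T hT hz hT3 U hU1 hU2 hU3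
  have hL : 1 ≤ Real.log T := Real.log_exp 1 ▸ Real.log_le_log (Real.exp_pos _)
    (le_trans Real.exp_one_lt_d9.le (by linarith))
  have hUT : U ≤ T := hU3.trans (div_le_self (by linarith) hL)
  have h1 := hT U hU2 hUT 0
  obtain ⟨iz, -, -⟩ := hz U ⟨hT3, hU1, hU3⟩
  have hset : {t : ℝ | t ∈ Set.Icc T (T + U) ∧
      ∀ j : Fin 0, |(fun _ : Fin 0 => (0 : ℝ)) j * (t - 0) - round ((fun _ : Fin 0 => (0 : ℝ)) j * (t - 0))| < 1} =
      Set.Icc T (T + U) := by
    ext t
    constructor
    · exact fun h => h.1
    · exact fun h => ⟨h, fun j => j.elim0⟩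
  rw [hset] at h1
  have hpow : Real.log T ^ (((2 * k : ℕ) : ℝ) ^ 2 / 4) = Real.log T ^ (k ^ 2) := by
    rw [← Real.rpow_natCast (Real.log T) (k ^ 2)]
    congr 1
    push_cast
    ring
  rw [hpow] at h1
  have hzero : ∀ y : ℝ, 0 ≤ U345Z.zq k T U y := fun y => mul_nonneg (by positivity) (Q97.MM.wt_pos T U y).le
  have h2 : ∫ y in Set.Icc T (T + U), U345Z.zq k T U y ≤ moment k T U :=
    setIntegral_le_integral iz (Eventually.of_forall hzero)
  refine le_trans ?_ h2
  have hcont : ContinuousOn (fun y : ℝ => ‖riemannZeta (point y)‖ ^ (2 * k)) (Set.Icc T (T + U)) := by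
    apply ContinuousOn.pow
    apply ContinuousOn.norm
    intro y hy
    apply ContinuousAt.continuousWithinAt
    have hne : point y ≠ 1 := by
      intro h
      have := congrArg Complex.re h
      unfold point at this
      simp at this
    have hp : ContinuousAt point y := by
      unfold point
      fun_prop
    exact ContinuousAt.comp (g := riemannZeta) (f := point) (differentiableAt_riemannZeta hne).continuousAt hp
  have h3 : ∫ y in Set.Icc T (T + U), ‖riemannZeta (point y)‖ ^ (2 * k) * Real.exp (-1) ≤
      ∫ y in Set.Icc T (T + U), U345Z.zq k T U y := by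
    apply setIntegral_mono_on
    · exact (hcont.mul continuousOn_const).integrableOn_compact isCompact_Icc
    · exact iz.integrableOn
    · exact measurableSet_Icc
    · intro y hy
      change _ ≤ ‖riemannZeta (point y)‖ ^ (2 * k) * Real.exp (-((y - T) / U) ^ 2)
      apply mul_le_mul_of_nonneg_left _ (by positivity)
      apply Real.exp_le_exp.2
      have hU0 : 0 < U := by linarith
      have e0 : 0 ≤ (y - T) / U := div_nonneg (by linarith [hy.1]) hU0.le
      have e1 : (y - T) / U ≤ 1 := by
        rw [div_le_one hU0]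
        linarith [hy.2]
      nlinarith
  rw [integral_mul_const] at h3
  refine le_trans ?_ h3
  have h4 : c * U * Real.log T ^ (k ^ 2) ≤ ∫ y in Set.Icc T (T + U), ‖riemannZeta (point y)‖ ^ (2 * k) := by
    refine h1.trans (le_of_eq ?_)
    have e : ∀ t : ℝ, Pool.Agent.R311.BS.zl t = riemannZeta (point t) := by
      intro t
      unfold point
      push_cast
      rfl
    simp only [e]
  calc c * Real.exp (-1) * U * Real.log T ^ (k ^ 2) = c * U * Real.log T ^ (k ^ 2) * Real.exp (-1) := by ring
    _ ≤ _ := mul_le_mul_of_nonneg_right h4 (Real.exp_pos _).le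

/-- Let `k ≥ 1` be an integer and `A ≥ 0`.
(1) There are `c > 0`, `C` and `T₀` such that for all `T ≥ T₀`, `1 ≤ U ≤ T / log T` and all probability measures `ν` on `ℂ` with
`ν {|z| > A} = 0`: for almost every `y` the function `z ↦ log |ζ(1/2 + iy + z / log T)|` is `ν`-integrable, the function
`exp (2k logMean ν T y) exp (-((y - T) / U)^2)` is integrable and its integral is between `c moment` and `C moment`.
(2) There are `c > 0`, `η > 0` and `T₀` such that for all `T ≥ T₀`, all `U` with `T^(1-η) ≤ U ≤ T / log T` and all such `ν` the integral is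
at least `c U (log T)^(k²)`. -/
theorem result (k : ℕ) (hk : 1 ≤ k) (A : ℝ) (hA : 0 ≤ A) :
    (∃ c C T₀ : ℝ, 0 < c ∧ ∀ T : ℝ, T₀ ≤ T → ∀ U : ℝ, 1 ≤ U → U ≤ T / Real.log T →
      ∀ ν : Measure ℂ, IsProbabilityMeasure ν → ν {z | A < ‖z‖} = 0 →
        (∀ᵐ y : ℝ, Integrable (fun z : ℂ => Real.log ‖riemannZeta (point y + z / Real.log T)‖) ν) ∧
        Integrable (geometric k ν T U) ∧ c * moment k T U ≤ ∫ y : ℝ, geometric k ν T U y ∧
        ∫ y : ℝ, geometric k ν T U y ≤ C * moment k T U) ∧
    ∃ c η T₀ : ℝ, 0 < c ∧ 0 < η ∧ ∀ T : ℝ, T₀ ≤ T → ∀ U : ℝ, T ^ (1 - η) ≤ U → U ≤ T / Real.log T →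
      ∀ ν : Measure ℂ, IsProbabilityMeasure ν → ν {z | A < ‖z‖} = 0 →
        c * U * Real.log T ^ (k ^ 2) ≤ ∫ y : ℝ, geometric k ν T U y := by
  obtain ⟨C, -, h1⟩ := U345Z.gm_upper k hk hA
  obtain ⟨c, hc, h2⟩ := U345Z.gm_lower k hk hA
  have h3 := U345Z.lm_ae hA
  obtain ⟨T1, hT1⟩ := eventually_atTop.mp ((h1.and h2).and h3)
  have hae : ∀ ν : Measure ℂ, ν {z | A < ‖z‖} = 0 → ∀ᵐ z ∂ν, ‖z‖ ≤ A := by
    intro ν hν
    rw [ae_iff]
    refine (measure_mono_null ?_ hν)
    intro z hz
    exact not_le.1 hz
  have p1 : ∀ T : ℝ, max 3 T1 ≤ T → ∀ U : ℝ, 1 ≤ U → U ≤ T / Real.log T →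
      ∀ ν : Measure ℂ, IsProbabilityMeasure ν → ν {z | A < ‖z‖} = 0 →
        (∀ᵐ y : ℝ, Integrable (fun z : ℂ => Real.log ‖riemannZeta (point y + z / Real.log T)‖) ν) ∧
        Integrable (geometric k ν T U) ∧ c * moment k T U ≤ ∫ y : ℝ, geometric k ν T U y ∧
        ∫ y : ℝ, geometric k ν T U y ≤ C * moment k T U := by
    intro T hT U hU1 hU2 ν hνp hν
    obtain ⟨⟨q1, q2⟩, q3⟩ := hT1 T (le_of_max_le_right hT)
    have hA' : Q97.MM.Adm T U := ⟨le_of_max_le_left hT, hU1, hU2⟩
    obtain ⟨r1, r2⟩ := q1 U hA' ν hνp (hae ν hν)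
    have r3 := q2 U hA' ν hνp (hae ν hν)
    have r4 := q3 ν hνp (hae ν hν)
    exact ⟨r4, r1, r3, r2⟩
  refine ⟨⟨c, C, max 3 T1, hc, p1⟩, ?_⟩
  obtain ⟨c', hc', η, hη, h4⟩ := moment_lower k hk
  obtain ⟨T2, hT2⟩ := eventually_atTop.mp h4
  have hη1 : 0 < min η 1 := lt_min hη one_pos
  refine ⟨c * c', min η 1, max (max 3 T1) T2, by positivity, hη1, fun T hT U hU1 hU2 ν hνp hν => ?_⟩
  have hT3 : 3 ≤ T := le_of_max_le_left (le_of_max_le_left hT)
  have hUη : T ^ (1 - η) ≤ U := le_trans (Real.rpow_le_rpow_of_exponent_le (by linarith)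
    (by linarith [min_le_left η 1])) hU1
  have hU0 : 1 ≤ U := le_trans (Real.one_le_rpow (by linarith) (by linarith [min_le_right η 1])) hU1
  have q1 := (p1 T (le_of_max_le_left hT) U hU0 hU2 ν hνp hν).2.2.1
  have q2 := hT2 T (le_of_max_le_right hT) U hU0 hUη hU2
  refine le_trans ?_ q1
  calc c * c' * U * Real.log T ^ (k ^ 2) = c * (c' * U * Real.log T ^ (k ^ 2)) := by ring
    _ ≤ _ := mul_le_mul_of_nonneg_left q2 hc.le

end Pool.Agent.Results.MP_91b7ff_nt.GeometricMeans
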